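import Mathlib
import Pool.Agent.D0H38.TD.Stm5

set_option autoImplicit false

namespace Pool.Agent.D0H87.TE

open Pool.Agent.D0H38.TD

theorem t_SUM1 : S_SUM1 := by
  classical
  intro V _ R U h
  have h1 : ∀ u ∈ U, (R.neighborSet u).ncard = (R.neighborSet u).toFinset.card := fun u _ =>
    Set.ncard_eq_toFinset_card' _
  rw [Finset.sum_congr rfl h1, ← Finset.card_biUnion]
  · exact Finset.card_le_univ _
  · intro u hu v hv huv
    refine Finset.disjoint_left.2 fun x hx hx' => ?_
    rw [Set.mem_toFinset, SimpleGraph.mem_neighborSet] at hx hx'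
    exact h u hu v hv huv x hx hx'

theorem t_CNT : S_CNT := by
  classical
  intro K N ω hN h
  constructor
  · rw [Set.ncard_eq_toFinset_card']
    have h1 : ({a | N < 8 * ω a} : Set (Fin K)).toFinset.card • (N + 1) ≤
        ∑ a ∈ ({a | N < 8 * ω a} : Set (Fin K)).toFinset, 8 * ω a :=
      Finset.card_nsmul_le_sum _ _ _ fun a ha => by
        rw [Set.mem_toFinset, Set.mem_ofPred_eq] at ha
        exact ha
    have h2 : ∑ a ∈ ({a | N < 8 * ω a} : Set (Fin K)).toFinset, 8 * ω a ≤ ∑ a, 8 * ω a :=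
      Finset.sum_le_sum_of_subset (Finset.subset_univ _)
    have h4 : ∑ a, 8 * ω a = 8 * ∑ a, ω a := by rw [Finset.mul_sum]
    rw [smul_eq_mul] at h1
    by_contra hc
    push Not at hc
    have h3 : 33 * (N + 1) ≤ ({a | N < 8 * ω a} : Set (Fin K)).toFinset.card * (N + 1) :=
      Nat.mul_le_mul_right _ hc
    omega
  · rw [Set.ncard_eq_toFinset_card']
    have h1 : ({a | 17 ≤ ω a} : Set (Fin K)).toFinset.card • 17 ≤
        ∑ a ∈ ({a | 17 ≤ ω a} : Set (Fin K)).toFinset, ω a :=
      Finset.card_nsmul_le_sum _ _ _ fun a ha => by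
        rw [Set.mem_toFinset, Set.mem_ofPred_eq] at ha
        exact ha
    have h2 : ∑ a ∈ ({a | 17 ≤ ω a} : Set (Fin K)).toFinset, ω a ≤ ∑ a, ω a :=
      Finset.sum_le_sum_of_subset (Finset.subset_univ _)
    rw [smul_eq_mul] at h1
    omega

end Pool.Agent.D0H87.TE
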